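import Pool.Agent.Y375.TD.Pair

set_option autoImplicit false

/-!
# The oracles for which Baire space is categorical: exact pairs

The definitions `Pres`, `IsName`, `CompMap`, `Cat`, `Red` are those of the starting file (module
`Pool.Agent.Helper583.TCStmt`): computable presentations of Baire space, fast Cauchy names, maps
computable relative to an oracle, `a`-categoricity, Turing reducibility.
-/

namespace Pool.Agent.Results.MP_7511ee_lc.ExactPairs

open Pool.Agent.Helper583.TC

/-- The bit sequence `y` is the only member of a (lightface) co-analytic class: for some primitive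
recursive relation `W` between finite words, `y` is the only sequence `z` such that every
`x : ℕ → ℕ` has a number `n` with `W (z restricted to n) (x restricted to n)`. -/
def CoanalyticSingleton (y : ℕ → Bool) : Prop :=
  ∃ W : List Bool × List ℕ → Bool, Primrec W ∧
    ∀ z : ℕ → Bool, (∀ x : ℕ → ℕ, ∃ n, W (pre z n, pre x n) = true) ↔ z = y

/-- `z` is computable from some bit sequence that is a co-analytic singleton. -/
def Low (z : ℕ → ℕ) : Prop :=
  ∃ y : ℕ → Bool, CoanalyticSingleton y ∧ Red z (fun n => (y n).toNat)

/-- **Main theorem.**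
1. Baire space is `a`-categorical iff `a` computes all co-analytic singletons; there is such an `a`.
2. No such `a` is computable from one co-analytic singleton; and the functions computable from every
such `a` are exactly the functions computable from one co-analytic singleton.
3. (Exact pairs.) For every countable set `A` of oracles there is a `b` for which Baire space is
categorical, such that for every `a ∈ A` everything computable from both `a` and `b` is computable
from one co-analytic singleton. In particular no oracle for which Baire space is categorical is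
computable from both `a` and `b`.
4. There are uncountably many oracles for which Baire space is categorical such that no oracle for
which Baire space is categorical is computable from two of them.
5. There is no least oracle for which Baire space is categorical: Baire space has no degree of
topological categoricity. -/
theorem result :
    ((∀ a : ℕ → ℕ, Cat a ↔
        ∀ y : ℕ → Bool, CoanalyticSingleton y → Red (fun n => (y n).toNat) a) ∧
      ∃ a : ℕ → ℕ, Cat a) ∧
    ((∀ a : ℕ → ℕ, Cat a → ¬ Low a) ∧
      ∀ z : ℕ → ℕ, Low z ↔ ∀ b : ℕ → ℕ, Cat b → Red z b) ∧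
    (∀ A : Set (ℕ → ℕ), A.Countable → ∃ b : ℕ → ℕ, Cat b ∧ ∀ a ∈ A,
      (∀ z : ℕ → ℕ, Red z a → Red z b → Low z) ∧ ¬ ∃ c : ℕ → ℕ, Cat c ∧ Red c a ∧ Red c b) ∧
    (∃ B : Set (ℕ → ℕ), ¬ B.Countable ∧ (∀ a ∈ B, Cat a) ∧
      ∀ a ∈ B, ∀ b ∈ B, a ≠ b → ¬ ∃ c : ℕ → ℕ, Cat c ∧ Red c a ∧ Red c b) ∧
    ¬ ∃ a : ℕ → ℕ, Cat a ∧ ∀ b : ℕ → ℕ, Cat b → Red a b := by
  refine ⟨⟨fun a => cat_iff, exists_cat⟩, ⟨fun a ha => Pool.Agent.Y375.TD.not_low ha,
    fun z => Pool.Agent.Y375.TD.low_iff z⟩, ?_, ?_, no_degree⟩
  · intro A hA
    obtain ⟨b, hb, h⟩ := Pool.Agent.Y375.TD.exact_pair A hA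
    refine ⟨b, hb, fun a ha => ⟨h a ha, ?_⟩⟩
    rintro ⟨c, hc, hca, hcb⟩
    exact Pool.Agent.Y375.TD.not_low hc (h a ha c hca hcb)
  · obtain ⟨B, h1, h2, h3⟩ := Pool.Agent.Y375.TD.uncountable_family
    refine ⟨B, h1, h2, ?_⟩
    rintro a ha b hb hab ⟨c, hc, hca, hcb⟩
    exact Pool.Agent.Y375.TD.not_low hc (h3 a ha b hb hab c hca hcb)

end Pool.Agent.Results.MP_7511ee_lc.ExactPairs
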